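import Pool.Agent.Q207.HM.LvS

/-!
# The one parameter group of a complex matrix and its characteristic polynomials
-/

set_option autoImplicit false

open Matrix

namespace Pool.Agent.Q95.LV

open Pool.Agent.Y119.HY (HD Gm E Yf Hc Am Bm cm)
open Polynomial (X C)

/-- determinants of polynomials of a matrix -/
theorem det_aeval {n : ℕ} (N : Matrix (Fin n) (Fin n) ℂ) (a : Fin n → ℂ)
    (h : N.charpoly = ∏ i, (X - C (a i))) (q : Polynomial ℂ) :
    (Polynomial.aeval N q).det = ∏ i, q.eval (a i) := by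
  have hC : ∀ c : ℂ, (Polynomial.aeval N (C c)).det = ∏ i : Fin n, (C c).eval (a i) := by
    intro c
    rw [Polynomial.aeval_C, Algebra.algebraMap_eq_smul_one, Matrix.det_smul, Matrix.det_one]
    simp
  have hX : ∀ m : ℂ, (Polynomial.aeval N (X - C m)).det = ∏ i : Fin n, (X - C m).eval (a i) := by
    intro m
    have h1 := Matrix.eval_charpoly N m
    rw [h, Polynomial.eval_prod] at h1
    have h2 : Polynomial.aeval N (X - C m) = -(Matrix.scalar (Fin n) m - N) := by
      rw [map_sub, Polynomial.aeval_X, Polynomial.aeval_C, neg_sub]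
      rfl
    rw [h2, Matrix.det_neg, ← h1, Fintype.card_fin]
    have h3 : ((-1 : ℂ)) ^ n = ∏ _i : Fin n, (-1 : ℂ) := by simp
    rw [h3, ← Finset.prod_mul_distrib]
    refine Finset.prod_congr rfl fun i _ => ?_
    simp
  have hM : ∀ p q : Polynomial ℂ, (Polynomial.aeval N p).det = ∏ i, p.eval (a i) →
      (Polynomial.aeval N q).det = ∏ i, q.eval (a i) →
      (Polynomial.aeval N (p * q)).det = ∏ i, (p * q).eval (a i) := by
    intro p q hp hq
    rw [map_mul, Matrix.det_mul, hp, hq, ← Finset.prod_mul_distrib]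
    refine Finset.prod_congr rfl fun i _ => ?_
    rw [Polynomial.eval_mul]
  rw [(IsAlgClosed.splits q).eq_prod_roots]
  refine hM _ _ (hC _) ?_
  refine Multiset.prod_induction (fun p : Polynomial ℂ =>
    (Polynomial.aeval N p).det = ∏ i, p.eval (a i)) _ (fun p q hp hq => hM p q hp hq) ?_ ?_
  · have := hC 1
    rwa [map_one] at this
  · intro p hp
    obtain ⟨m, _, rfl⟩ := Multiset.mem_map.1 hp
    exact hX m

theorem charpoly_aeval {n : ℕ} (N : Matrix (Fin n) (Fin n) ℂ) (a : Fin n → ℂ)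
    (h : N.charpoly = ∏ i, (X - C (a i))) (r : Polynomial ℂ) :
    (Polynomial.aeval N r).charpoly = ∏ i, (X - C (r.eval (a i))) := by
  refine Polynomial.funext fun x => ?_
  rw [Matrix.eval_charpoly, Polynomial.eval_prod]
  have h1 : Matrix.scalar (Fin n) x - Polynomial.aeval N r = Polynomial.aeval N (C x - r) := by
    rw [map_sub, Polynomial.aeval_C]
    rfl
  rw [h1, det_aeval N a h]
  refine Finset.prod_congr rfl fun i _ => ?_
  simp

section exp

attribute [local instance] Matrix.linftyOpNormedRing Matrix.linftyOpNormedAlgebra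

theorem exp_poly {n : ℕ} (N : Matrix (Fin n) (Fin n) ℂ) (a : Fin n → ℂ) (s : ℂ) :
    ∃ r : Polynomial ℂ, Polynomial.aeval N r = NormedSpace.exp (s • N) ∧
      ∀ i, r.eval (a i) = Complex.exp (s * a i) := by
  have h1 : HasSum (fun k : ℕ => ((k.factorial : ℂ))⁻¹ • (s • N) ^ k) (NormedSpace.exp (s • N)) :=
    NormedSpace.exp_series_hasSum_exp' (𝕂 := ℂ) (s • N)
  have h2 : HasSum (fun k : ℕ => ((k.factorial : ℂ))⁻¹ • (s • a) ^ k)
      (fun i => Complex.exp (s * a i)) := by
    refine Pi.hasSum.2 fun i => ?_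
    have := NormedSpace.exp_series_hasSum_exp' (𝕂 := ℂ) (s * a i)
    rw [← Complex.exp_eq_exp_ℂ] at this
    exact this
  have h3 := h1.prodMk h2
  set S : Subalgebra ℂ (Matrix (Fin n) (Fin n) ℂ × (Fin n → ℂ)) :=
    (Polynomial.aeval (R := ℂ) ((N, a) : Matrix (Fin n) (Fin n) ℂ × (Fin n → ℂ))).range with hS
  have h4 := Submodule.closed_of_finiteDimensional (Subalgebra.toSubmodule S)
  have h5 : ((NormedSpace.exp (s • N), fun i => Complex.exp (s * a i)) :
      Matrix (Fin n) (Fin n) ℂ × (Fin n → ℂ)) ∈ Subalgebra.toSubmodule S := by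
    rw [← h3.tsum_eq]
    refine tsum_mem h4 fun k => ?_
    rw [Subalgebra.mem_toSubmodule, hS, AlgHom.mem_range]
    refine ⟨C ((k.factorial : ℂ))⁻¹ * (C s * X) ^ k, ?_⟩
    rw [map_mul, map_pow, map_mul, Polynomial.aeval_C, Polynomial.aeval_C, Polynomial.aeval_X,
      ← Algebra.smul_def, ← Algebra.smul_def]
    rfl
  rw [Subalgebra.mem_toSubmodule, hS, AlgHom.mem_range] at h5
  obtain ⟨r, hr⟩ := h5
  refine ⟨r, ?_, fun i => ?_⟩
  · have h6 := congrArg (AlgHom.fst ℂ (Matrix (Fin n) (Fin n) ℂ) (Fin n → ℂ)) hr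
    rw [← Polynomial.aeval_algHom_apply] at h6
    exact h6
  · have h6 := congrArg ((Pi.evalAlgHom ℂ (fun _ : Fin n => ℂ) i).comp
      (AlgHom.snd ℂ (Matrix (Fin n) (Fin n) ℂ) (Fin n → ℂ))) hr
    rw [← Polynomial.aeval_algHom_apply] at h6
    exact h6

theorem exp_HD {n : ℕ} (N : Matrix (Fin n) (Fin n) ℂ) (s : ℂ) :
    HD (fun s : ℂ => NormedSpace.exp (s • N)) (N * NormedSpace.exp (s • N)) s := by
  intro i j
  have h1 := hasDerivAt_exp_smul_const' (𝕂 := ℂ) N s
  have h2 := ((Matrix.entryLinearMap ℂ ℂ i j :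
    Matrix (Fin n) (Fin n) ℂ →ₗ[ℂ] ℂ).toContinuousLinearMap).hasFDerivAt.comp_hasDerivAt s h1
  exact h2

theorem expm : Q207.HM.Lv.S_Exp := by
  intro n N a h
  refine ⟨fun s => NormedSpace.exp (s • N), ?_, fun s t => ?_, fun s => exp_HD N s, fun s => ?_⟩
  · show NormedSpace.exp ((0 : ℂ) • N) = 1
    rw [zero_smul, NormedSpace.exp_zero]
  · show NormedSpace.exp ((s + t) • N) = NormedSpace.exp (s • N) * NormedSpace.exp (t • N)
    rw [add_smul]
    exact NormedSpace.exp_add_of_commute (((Commute.refl N).smul_left s).smul_right t)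
  · obtain ⟨r, hr, h2⟩ := exp_poly N a s
    show (NormedSpace.exp (s • N)).charpoly = _
    rw [← hr, charpoly_aeval N a h]
    refine Finset.prod_congr rfl fun i _ => ?_
    rw [h2 i]

end exp

end Pool.Agent.Q95.LV
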