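import Pool.Agent.Q207.HM.LvS

/-!
# The characteristic polynomial of a pseudoreflection times a unipotent matrix
-/

set_option autoImplicit false

open Matrix

namespace Pool.Agent.Q95.LV

open Pool.Agent.Y119.HY (HD Gm E Yf Hc Am Bm cm)
open Polynomial (X C)

/-- the polynomial with `E A s = aeval A (pE n s)` -/
noncomputable def pE (n : ℕ) (s : ℂ) : Polynomial ℂ :=
  ∑ i ∈ Finset.range n, C (s ^ i / (i.factorial : ℂ)) * X ^ i

theorem aeval_pE {n : ℕ} (A : Matrix (Fin n) (Fin n) ℂ) (s : ℂ) :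
    Polynomial.aeval A (pE n s) = E A s := by
  unfold pE E
  rw [map_sum]
  refine Finset.sum_congr rfl fun i _ => ?_
  rw [map_mul, map_pow, Polynomial.aeval_C, Polynomial.aeval_X, Algebra.smul_def]

theorem pE_coeff_zero {n : ℕ} (hn : n ≠ 0) (s : ℂ) : (pE n s).coeff 0 = 1 := by
  obtain ⟨m, rfl⟩ := Nat.exists_eq_succ_of_ne_zero hn
  unfold pE
  rw [Polynomial.finsetSum_coeff, Finset.sum_range_succ']
  simp

theorem exists_q {n : ℕ} (hn : n ≠ 0) (s x : ℂ) (hx : x ≠ 1) : ∃ q : Polynomial ℂ,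
    ∀ A : Matrix (Fin n) (Fin n) ℂ, A ^ n = 0 →
      (Matrix.scalar (Fin n) x - E A s) * Polynomial.aeval A q = 1 := by
  have h1 : IsCoprime X (C x - pE n s) := by
    rw [Polynomial.irreducible_X.coprime_iff_not_dvd, Polynomial.X_dvd_iff, Polynomial.coeff_sub,
      pE_coeff_zero hn, Polynomial.coeff_C_zero]
    exact sub_ne_zero.2 hx
  have h2 : IsCoprime (X ^ n) (C x - pE n s) := h1.pow_left
  obtain ⟨a, b, hab⟩ := h2
  refine ⟨b, fun A hA => ?_⟩
  have h3 := congrArg (Polynomial.aeval A) hab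
  rw [map_add, map_mul, map_mul, map_pow, Polynomial.aeval_X, hA, mul_zero, zero_add, map_sub,
    aeval_pE, Polynomial.aeval_C, map_one] at h3
  rw [← h3, show Matrix.scalar (Fin n) x = algebraMap ℂ (Matrix (Fin n) (Fin n) ℂ) x from rfl]
  have h4 : Commute (algebraMap ℂ (Matrix (Fin n) (Fin n) ℂ) x - E A s) (Polynomial.aeval A b) := by
    rw [← aeval_pE A s, ← Polynomial.aeval_C (A := Matrix (Fin n) (Fin n) ℂ) (x := A), ← map_sub]
    exact (Commute.all _ _).map _
  exact h4.eq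

theorem det_E {n : ℕ} (hn : n ≠ 0) (A : Matrix (Fin n) (Fin n) ℂ) (hA : A ^ n = 0) (s x : ℂ) :
    (Matrix.scalar (Fin n) x - E A s).det = (x - 1) ^ n := by
  have h1 : IsNilpotent (E A s - 1) := by
    have h2 : X ∣ pE n s - 1 := by
      rw [Polynomial.X_dvd_iff, Polynomial.coeff_sub, pE_coeff_zero hn, Polynomial.coeff_one_zero,
        sub_self]
    obtain ⟨g, hg⟩ := h2
    have h3 := congrArg (Polynomial.aeval A) hg
    rw [map_sub, aeval_pE, map_one, map_mul, Polynomial.aeval_X] at h3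
    refine ⟨n, ?_⟩
    have h4 : Commute A (Polynomial.aeval A g) := by
      have := (Commute.all X g).map (Polynomial.aeval A)
      rwa [Polynomial.aeval_X] at this
    rw [h3, h4.mul_pow, hA, zero_mul]
  have h2 := (Matrix.isNilpotent_charpoly_sub_pow_of_isNilpotent h1).eq_zero
  rw [sub_eq_zero, Fintype.card_fin] at h2
  have h3 := Matrix.eval_charpoly (E A s - 1) (x - 1)
  rw [h2, Polynomial.eval_pow, Polynomial.eval_X] at h3
  rw [h3]
  congr 1
  rw [map_sub, map_one]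
  abel

/-- the key formula -/
theorem key {n : ℕ} (hn : n ≠ 0) (s x κ : ℂ) (hx : x ≠ 1) : ∃ r : ℕ → ℂ,
    ∀ (A : Matrix (Fin n) (Fin n) ℂ) (u φ : Fin n → ℂ), A ^ n = 0 →
      Polynomial.eval x ((1 + κ • vecMulVec u φ) * E A s).charpoly =
        (x - 1) ^ n * (1 - κ * ∑ l ∈ Finset.range n, r l * (φ ⬝ᵥ ((A ^ l) *ᵥ u))) := by
  obtain ⟨q, hq⟩ := exists_q hn s x hx
  refine ⟨fun l => (pE n s * q).coeff l, fun A u φ hA => ?_⟩
  have h1 : Matrix.scalar (Fin n) x - (1 + κ • vecMulVec u φ) * E A s =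
      (Matrix.scalar (Fin n) x - E A s) *
        (1 + Matrix.replicateCol Unit (-(κ • (Polynomial.aeval A q *ᵥ u))) *
          Matrix.replicateRow Unit (φ ᵥ* E A s)) := by
    rw [← Matrix.vecMulVec_eq, mul_add, mul_one, add_mul, one_mul, smul_mul_assoc,
      Matrix.vecMulVec_mul, Matrix.mul_vecMulVec, Matrix.mulVec_neg, Matrix.mulVec_smul,
      Matrix.mulVec_mulVec, hq A hA, Matrix.one_mulVec, Matrix.neg_vecMulVec,
      Matrix.smul_vecMulVec]
    abel
  rw [Matrix.eval_charpoly, h1, Matrix.det_mul, Matrix.det_one_add_replicateCol_mul_replicateRow,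
    det_E hn A hA]
  congr 1
  rw [dotProduct_neg, dotProduct_smul, smul_eq_mul, ← Matrix.dotProduct_mulVec,
    Matrix.mulVec_mulVec, ← aeval_pE, ← map_mul, sub_eq_add_neg]
  congr 3
  have h2 : Polynomial.aeval A (pE n s * q) =
      ∑ l ∈ Finset.range n, (pE n s * q).coeff l • A ^ l := by
    rw [Polynomial.aeval_eq_sum_range' (n := n + (pE n s * q).natDegree + 1) (by omega)]
    symm
    refine Finset.sum_subset (fun i hi => ?_) (fun i _ hi => ?_)
    · rw [Finset.mem_range] at hi ⊢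
      omega
    · rw [Finset.mem_range, not_lt] at hi
      rw [pow_eq_zero_of_le hi hA, smul_zero]
  rw [h2, Matrix.sum_mulVec, dotProduct_sum]
  refine Finset.sum_congr rfl fun l _ => ?_
  rw [Matrix.smul_mulVec, dotProduct_smul, smul_eq_mul]

theorem poly_ext {P Q : Polynomial ℂ} (h : ∀ x : ℂ, x ≠ 1 → P.eval x = Q.eval x) : P = Q := by
  refine Polynomial.eq_of_infinite_eval_eq P Q (Set.Infinite.mono (s := {(1 : ℂ)}ᶜ) ?_ ?_)
  · intro x hx
    exact h x (by simpa using hx)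
  · exact (Set.finite_singleton (1 : ℂ)).infinite_compl

theorem eq_of_moments {n : ℕ} (A A' : Matrix (Fin n) (Fin n) ℂ) (u φ u' φ' : Fin n → ℂ) (κ s : ℂ)
    (hA : A ^ n = 0) (hA' : A' ^ n = 0)
    (h : ∀ l < n, φ ⬝ᵥ ((A ^ l) *ᵥ u) = φ' ⬝ᵥ ((A' ^ l) *ᵥ u')) :
    ((1 + κ • vecMulVec u φ) * E A s).charpoly = ((1 + κ • vecMulVec u' φ') * E A' s).charpoly := by
  rcases Nat.eq_zero_or_pos n with rfl | hn
  · rw [Matrix.charpoly_isEmpty, Matrix.charpoly_isEmpty]
  refine poly_ext fun x hx => ?_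
  obtain ⟨r, hr⟩ := key hn.ne' s x κ hx
  rw [hr A u φ hA, hr A' u' φ' hA']
  congr 3
  refine Finset.sum_congr rfl fun l hl => ?_
  rw [h l (Finset.mem_range.1 hl)]

theorem mom : Q207.HM.Lv.S_Mom := by
  intro n A u φ u' φ' κ s hA
  refine ⟨fun h => eq_of_moments A A u φ u' φ' κ s hA hA h, fun h => ?_, fun h => ?_⟩
  · have hA' : (-A) ^ n = 0 := by
      rw [neg_pow, hA, mul_zero]
    rw [← Pool.Agent.Y119.HY.E_neg]
    refine eq_of_moments A (-A) u φ u' φ' κ s hA hA' fun l hl => ?_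
    rw [h l hl]
    rcases Nat.even_or_odd l with hl2 | hl2
    · rw [hl2.neg_one_pow, hl2.neg_pow, one_mul]
    · rw [hl2.neg_one_pow, hl2.neg_pow, Matrix.neg_mulVec, dotProduct_neg, neg_one_mul]
  · rcases Nat.eq_zero_or_pos n with rfl | hn
    · rw [Matrix.charpoly_isEmpty, Matrix.charpoly_isEmpty]
      norm_num
    refine poly_ext fun x hx => ?_
    obtain ⟨r, hr⟩ := key hn.ne' s x κ hx
    rw [Polynomial.eval_add, hr A u φ hA, hr A u' φ' hA]
    have h2 : ∑ l ∈ Finset.range n, r l * (φ ⬝ᵥ ((A ^ l) *ᵥ u)) =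
        - ∑ l ∈ Finset.range n, r l * (φ' ⬝ᵥ ((A ^ l) *ᵥ u')) := by
      rw [← Finset.sum_neg_distrib]
      refine Finset.sum_congr rfl fun l hl => ?_
      rw [h l (Finset.mem_range.1 hl), mul_neg]
    rw [h2]
    simp only [Polynomial.eval_mul, Polynomial.eval_ofNat, Polynomial.eval_pow,
      Polynomial.eval_sub, Polynomial.eval_X, Polynomial.eval_one]
    ring

end Pool.Agent.Q95.LV
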